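import Mathlib

/-- In a pi-regular ring every element has a regular power of exponent at least two. -/
theorem Pool.Agent.Results.MP_59f064_al.HigherPower.result {R : Type*} [Ring R]
    (h : ∀ a : R, ∃ n : ℕ, 1 ≤ n ∧ ∃ x : R, a ^ n = a ^ n * x * a ^ n) (a : R) :
    ∃ k : ℕ, 2 ≤ k ∧ ∃ x : R, a ^ k = a ^ k * x * a ^ k := by
  obtain ⟨n, hn, x, hx⟩ := h (a ^ 2)
  exact ⟨2 * n, by omega, x, by rw [pow_mul]; exact hx⟩
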